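import Pool.Agent.N909.CX.Def

/-!
# CX/6 (helper374 for helper909): the second moment bound
-/

set_option autoImplicit false

open MeasureTheory Filter Set ProbabilityTheory

namespace Pool.Agent.N374.CX6

theorem t : Pool.Agent.N909.CX.Stm6 := by
  intro Ω m0 μ _ I E hE
  classical
  obtain ⟨U, hU⟩ : ∃ U : Set Ω, U = ⋃ n ∈ I, E n := ⟨_, rfl⟩
  have hUm : MeasurableSet U := by
    rw [hU]
    exact Finset.measurableSet_biUnion I (fun n _ => hE n)
  rw [← hU]
  have hint : ∀ s : Set Ω, MeasurableSet s → Integrable (s.indicator (1 : Ω → ℝ)) μ := fun s hs =>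
    (integrable_const (1 : ℝ)).indicator hs
  have hval : ∀ s : Set Ω, MeasurableSet s → ∫ ω, s.indicator (1 : Ω → ℝ) ω ∂μ = μ.real s :=
    fun s hs => integral_indicator_one hs
  have key : ∀ t : ℝ, 0 ≤ μ.real U * (t * t) + (-2 * ∑ n ∈ I, μ.real (E n)) * t
      + ∑ n ∈ I, ∑ n' ∈ I, μ.real (E n ∩ E n') := by
    intro t
    have i1 : Integrable (fun ω => (t * t) * U.indicator (1 : Ω → ℝ) ω) μ :=
      (hint U hUm).const_mul _
    have i2 : Integrable (fun ω => (-2 * t) * ∑ n ∈ I, (E n).indicator (1 : Ω → ℝ) ω) μ :=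
      (integrable_finsetSum I (fun n _ => hint (E n) (hE n))).const_mul _
    have i3 : ∀ n ∈ I, Integrable (fun ω => ∑ n' ∈ I, (E n ∩ E n').indicator (1 : Ω → ℝ) ω) μ :=
      fun n _ => integrable_finsetSum I (fun n' _ => hint _ ((hE n).inter (hE n')))
    have i4 : Integrable (fun ω => ∑ n ∈ I, ∑ n' ∈ I, (E n ∩ E n').indicator (1 : Ω → ℝ) ω) μ :=
      integrable_finsetSum I i3
    have i12 : Integrable (fun ω => (t * t) * U.indicator (1 : Ω → ℝ) ω
        + (-2 * t) * ∑ n ∈ I, (E n).indicator (1 : Ω → ℝ) ω) μ := i1.add i2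
    have h1 : ∫ ω, ((t * t) * U.indicator (1 : Ω → ℝ) ω
        + (-2 * t) * ∑ n ∈ I, (E n).indicator (1 : Ω → ℝ) ω
        + ∑ n ∈ I, ∑ n' ∈ I, (E n ∩ E n').indicator (1 : Ω → ℝ) ω) ∂μ
        = μ.real U * (t * t) + (-2 * ∑ n ∈ I, μ.real (E n)) * t
          + ∑ n ∈ I, ∑ n' ∈ I, μ.real (E n ∩ E n') := by
      rw [integral_add i12 i4, integral_add i1 i2, integral_const_mul, integral_const_mul,
        integral_finsetSum I (fun n _ => hint (E n) (hE n)), integral_finsetSum I i3, hval U hUm,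
        Finset.sum_congr rfl (fun n _ => hval (E n) (hE n))]
      have h2 : ∀ n ∈ I, ∫ ω, ∑ n' ∈ I, (E n ∩ E n').indicator (1 : Ω → ℝ) ω ∂μ
          = ∑ n' ∈ I, μ.real (E n ∩ E n') := by
        intro n _
        rw [integral_finsetSum I (fun n' _ => hint _ ((hE n).inter (hE n')))]
        exact Finset.sum_congr rfl (fun n' _ => hval _ ((hE n).inter (hE n')))
      rw [Finset.sum_congr rfl h2]
      ring
    rw [← h1]
    apply integral_nonneg
    intro ω
    show 0 ≤ (t * t) * U.indicator (1 : Ω → ℝ) ω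
        + (-2 * t) * ∑ n ∈ I, (E n).indicator (1 : Ω → ℝ) ω
        + ∑ n ∈ I, ∑ n' ∈ I, (E n ∩ E n').indicator (1 : Ω → ℝ) ω
    have h3 : ∑ n ∈ I, ∑ n' ∈ I, (E n ∩ E n').indicator (1 : Ω → ℝ) ω
        = (∑ n ∈ I, (E n).indicator (1 : Ω → ℝ) ω) * ∑ n ∈ I, (E n).indicator (1 : Ω → ℝ) ω := by
      rw [Finset.sum_mul_sum]
      refine Finset.sum_congr rfl fun n _ => Finset.sum_congr rfl fun n' _ => ?_
      rw [Set.inter_indicator_one]
      rfl
    rw [h3]
    by_cases hω : ω ∈ U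
    · rw [Set.indicator_of_mem hω, Pi.one_apply]
      nlinarith [sq_nonneg (t - ∑ n ∈ I, (E n).indicator (1 : Ω → ℝ) ω)]
    · have h4 : ∑ n ∈ I, (E n).indicator (1 : Ω → ℝ) ω = 0 := by
        apply Finset.sum_eq_zero
        intro n hn
        apply Set.indicator_of_notMem
        intro h5
        apply hω
        rw [hU]
        exact Set.mem_biUnion (Finset.mem_coe.mpr hn) h5
      rw [Set.indicator_of_notMem hω, h4]
      simp
  have hd := discrim_le_zero key
  rw [discrim] at hd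
  nlinarith

end Pool.Agent.N374.CX6
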